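import Pool.Agent.H57.KB.Polar

/-!
# The curvature form: decomposition and lower bounds
-/

set_option autoImplicit false

open MeasureTheory Matrix Set
open scoped ComplexOrder

namespace Pool.Agent.H57.KB

variable {n k : ℕ}

theorem psd_real {c : ℝ} (hc : 0 ≤ c) : ((c : ℂ) • (1 : Matrix (Fin n) (Fin n) ℂ)).PosSemidef :=
  Matrix.PosSemidef.one.smul (Complex.zero_le_real.2 hc)

/-- Cauchy-Schwarz. -/
theorem cs (v : Fin n → ℂ) : (((∑ i, Complex.normSq (v i) : ℝ) : ℂ) • (1 : Matrix (Fin n) (Fin n) ℂ) -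
    vecMulVec v (star v)).PosSemidef := by
  have h0 : 0 ≤ ∑ i, Complex.normSq (v i) := Finset.sum_nonneg fun _ _ => Complex.normSq_nonneg _
  refine PosSemidef.of_dotProduct_mulVec_nonneg ?_ fun x => ?_
  · exact (psd_real h0).1.sub (posSemidef_vecMulVec_self_star v).1
  · have h1 := norm_inner_le_norm (𝕜 := ℂ) (WithLp.toLp 2 v) (WithLp.toLp 2 x)
    rw [EuclideanSpace.inner_eq_star_dotProduct] at h1
    have h2 : ‖x ⬝ᵥ star v‖ ^ 2 ≤ ‖WithLp.toLp 2 v‖ ^ 2 * ‖WithLp.toLp 2 x‖ ^ 2 := by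
      rw [← mul_pow]
      exact pow_le_pow_left₀ (norm_nonneg _) h1 2
    rw [EuclideanSpace.norm_sq_eq, EuclideanSpace.norm_sq_eq] at h2
    have e1 : star x ⬝ᵥ ((((∑ i, Complex.normSq (v i) : ℝ) : ℂ) • (1 : Matrix (Fin n) (Fin n) ℂ) -
        vecMulVec v (star v)) *ᵥ x) =
        (((∑ i, Complex.normSq (v i)) * (∑ i, ‖x i‖ ^ 2) - ‖x ⬝ᵥ star v‖ ^ 2 : ℝ) : ℂ) := by
      rw [Matrix.sub_mulVec, dotProduct_sub, Matrix.smul_mulVec, Matrix.one_mulVec, dotProduct_smul,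
        vecMulVec_mulVec]
      have e2 : star x ⬝ᵥ x = ((∑ i, ‖x i‖ ^ 2 : ℝ) : ℂ) := by
        rw [dotProduct, Complex.ofReal_sum]
        refine Finset.sum_congr rfl fun i _ => ?_
        rw [Pi.star_apply, ← Complex.normSq_eq_norm_sq, Complex.normSq_eq_conj_mul_self]
        rfl
      have e3 : star x ⬝ᵥ MulOpposite.op (star v ⬝ᵥ x) • v = ((‖x ⬝ᵥ star v‖ ^ 2 : ℝ) : ℂ) := by
        rw [← Complex.normSq_eq_norm_sq, Complex.normSq_eq_conj_mul_self, dotProduct_smul]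
        have e4 : (starRingEnd ℂ) (x ⬝ᵥ star v) = star x ⬝ᵥ v := by
          rw [starRingEnd_apply, Matrix.star_dotProduct, dotProduct_comm]
        rw [e4, dotProduct_comm (star v) x]
        rfl
      rw [e2, e3]
      push_cast
      rfl
    rw [e1, Complex.zero_le_real]
    simp only [Complex.normSq_eq_norm_sq]
    linarith

/-- `|ζ_s|²`. -/
noncomputable def sq (v : Fin n → ℂ) : ℝ := ∑ i, Complex.normSq (v i)

theorem sq_nonneg' (v : Fin n → ℂ) : 0 ≤ sq v := Finset.sum_nonneg fun _ _ => Complex.normSq_nonneg _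

/-- The remainder `2|ζ|² - ∑ (1/s)(|ζ_s|² + ζ_s ζ_s^*)`. -/
noncomputable def rem (ζ : Jet n k) : Matrix (Fin n) (Fin n) ℂ :=
  ((2 * nsq ζ : ℝ) : ℂ) • (1 : Matrix (Fin n) (Fin n) ℂ) - ∑ s : Fin k, ((1 / ((s : ℕ) + 1) : ℝ) : ℂ) •
    ((sq (ζ s) : ℂ) • (1 : Matrix (Fin n) (Fin n) ℂ) + vecMulVec (ζ s) (star (ζ s)))

theorem vecMul_form (S : Matrix (Fin n) (Fin n) ℂ) (x : Fin n → ℂ) :
    vecMulVec (star (x ᵥ* S)) (x ᵥ* S) = Sᴴ * vecMulVec (star x) x * S := by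
  rw [mul_vecMulVec, vecMulVec_mul, star_vecMul]

theorem curv_eq (d : ℕ) (t : ℝ) (S : Matrix (Fin n) (Fin n) ℂ) (ζ : Jet n k) :
    curv d t S ζ = Sᴴ * (wis ζ - ((t * nsq ζ / (d - 1) : ℝ) : ℂ) • (1 : Matrix (Fin n) (Fin n) ℂ)) * S +
      rem ζ := by
  unfold curv wis rem
  simp only [vecMul_form]
  rw [Matrix.mul_sub, Matrix.sub_mul, Matrix.mul_sum, Matrix.sum_mul]
  have e1 : ∀ s : Fin k, Sᴴ * ((1 / ((s : ℕ) + 1) : ℝ) : ℂ) • vecMulVec (star (ζ s)) (ζ s) * S =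
      ((1 / ((s : ℕ) + 1) : ℝ) : ℂ) • (Sᴴ * vecMulVec (star (ζ s)) (ζ s) * S) := by
    intro s
    rw [Matrix.mul_smul, Matrix.smul_mul]
  have e2 : Sᴴ * ((t * nsq ζ / (d - 1) : ℝ) : ℂ) • (1 : Matrix (Fin n) (Fin n) ℂ) * S =
      ((t * nsq ζ / (d - 1) : ℝ) : ℂ) • (Sᴴ * S) := by
    rw [Matrix.mul_smul, Matrix.smul_mul, Matrix.mul_one]
  have e3 : ((nsq ζ : ℝ) : ℂ) • ((2 : ℂ) • (1 : Matrix (Fin n) (Fin n) ℂ) - ((t / (d - 1) : ℝ) : ℂ) • (Sᴴ * S)) =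
      ((2 * nsq ζ : ℝ) : ℂ) • (1 : Matrix (Fin n) (Fin n) ℂ) -
        ((t * nsq ζ / (d - 1) : ℝ) : ℂ) • (Sᴴ * S) := by
    rw [smul_sub, smul_smul, smul_smul]
    congr 2
    · push_cast
      ring
    · push_cast
      ring
  have e4 : ∀ s : Fin k, ((1 / ((s : ℕ) + 1) : ℝ) : ℂ) • (Sᴴ * vecMulVec (star (ζ s)) (ζ s) * S -
      ((∑ i, Complex.normSq (ζ s i) : ℝ) : ℂ) • (1 : Matrix (Fin n) (Fin n) ℂ) -
      vecMulVec (ζ s) (star (ζ s))) =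
      ((1 / ((s : ℕ) + 1) : ℝ) : ℂ) • (Sᴴ * vecMulVec (star (ζ s)) (ζ s) * S) -
      ((1 / ((s : ℕ) + 1) : ℝ) : ℂ) • ((sq (ζ s) : ℂ) • (1 : Matrix (Fin n) (Fin n) ℂ) +
        vecMulVec (ζ s) (star (ζ s))) := by
    intro s
    rw [← smul_sub]
    congr 1
    unfold sq
    abel
  simp only [e4, Finset.sum_sub_distrib]
  rw [Finset.sum_congr rfl fun s _ => e1 s, e2, e3]
  abel

theorem nsq_eq (ζ : Jet n k) : nsq ζ = ∑ s, sq (ζ s) := rfl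

theorem rem_le (ζ : Jet n k) :
    (((2 * nsq ζ : ℝ) : ℂ) • (1 : Matrix (Fin n) (Fin n) ℂ) - rem ζ).PosSemidef := by
  unfold rem
  rw [sub_sub_cancel]
  refine posSemidef_sum _ fun s _ => ?_
  refine Matrix.PosSemidef.smul ?_ (Complex.zero_le_real.2 (by positivity))
  exact (psd_real (sq_nonneg' _)).add (posSemidef_vecMulVec_self_star _)

theorem rem_psd (ζ : Jet n k) : (rem ζ).PosSemidef := by
  have e : rem ζ = ∑ s : Fin k, (((2 - 2 / ((s : ℕ) + 1)) * sq (ζ s) : ℝ) : ℂ) •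
      (1 : Matrix (Fin n) (Fin n) ℂ) + ∑ s : Fin k, ((1 / ((s : ℕ) + 1) : ℝ) : ℂ) •
      ((sq (ζ s) : ℂ) • (1 : Matrix (Fin n) (Fin n) ℂ) - vecMulVec (ζ s) (star (ζ s))) := by
    unfold rem
    have h1 : ((2 * nsq ζ : ℝ) : ℂ) • (1 : Matrix (Fin n) (Fin n) ℂ) =
        ∑ s : Fin k, ((2 * sq (ζ s) : ℝ) : ℂ) • (1 : Matrix (Fin n) (Fin n) ℂ) := by
      rw [← Finset.sum_smul, nsq_eq, Finset.mul_sum, Complex.ofReal_sum]
    rw [h1, ← Finset.sum_sub_distrib, ← Finset.sum_add_distrib]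
    refine Finset.sum_congr rfl fun s _ => ?_
    rw [smul_add, smul_sub, smul_smul]
    have h2 : (((2 - 2 / ((s : ℕ) + 1)) * sq (ζ s) : ℝ) : ℂ) =
        ((2 * sq (ζ s) : ℝ) : ℂ) - ((1 / ((s : ℕ) + 1) : ℝ) : ℂ) * (sq (ζ s) : ℂ) -
        ((1 / ((s : ℕ) + 1) : ℝ) : ℂ) * (sq (ζ s) : ℂ) := by
      push_cast
      ring
    rw [h2, sub_smul, sub_smul]
    abel
  rw [e]
  refine (posSemidef_sum _ fun s _ => ?_).add (posSemidef_sum _ fun s _ => ?_)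
  · apply psd_real
    apply mul_nonneg _ (sq_nonneg' _)
    have h1 : (1 : ℝ) ≤ ((s : ℕ) : ℝ) + 1 := by
      have : (0 : ℝ) ≤ ((s : ℕ) : ℝ) := Nat.cast_nonneg _
      linarith
    have h2 : 2 / (((s : ℕ) : ℝ) + 1) ≤ 2 := by
      rw [div_le_iff₀ (by linarith)]
      linarith
    linarith
  · exact Matrix.PosSemidef.smul (cs _) (Complex.zero_le_real.2 (by positivity))

theorem wis_psd (ζ : Jet n k) : (wis ζ).PosSemidef := by
  unfold wis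
  refine posSemidef_sum _ fun s _ => ?_
  exact Matrix.PosSemidef.smul (posSemidef_vecMulVec_star_self _) (Complex.zero_le_real.2 (by positivity))

/-- `low` is a lower bound of the integrand. -/
theorem low_le_idx (d : ℕ) (hd : 1 ≤ d) {t : ℝ} (ht : 0 ≤ t) (S : Matrix (Fin n) (Fin n) ℂ) (ζ : Jet n k) :
    low (t * nsq ζ / (d - 1)) (2 * nsq ζ) S ζ ≤ Pool.H64.KB.idx (curv d t S ζ) := by
  have hd' : (0 : ℝ) ≤ (d : ℝ) - 1 := by
    have : (1 : ℝ) ≤ d := by exact_mod_cast hd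
    linarith
  have hτ : 0 ≤ t * nsq ζ / (d - 1) := div_nonneg (mul_nonneg ht (nsq_nonneg ζ)) hd'
  rw [curv_eq]
  unfold low
  split_ifs with h
  · have := Pool.H64.KB.idx_form_ge (W := wis ζ) (S := S) (R := rem ζ) hτ h (rem_psd ζ)
    rwa [Fintype.card_fin] at this
  · exact Pool.H64.KB.idx_form_ge_neg hτ (wis_psd ζ) (rem_psd ζ) (rem_le ζ)

theorem det_form_nonneg {a c : ℝ} (ha : 0 ≤ a) (hc : 0 ≤ c) (S : Matrix (Fin n) (Fin n) ℂ) (ζ : Jet n k) :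
    (Sᴴ * (wis ζ + (a : ℂ) • (1 : Matrix (Fin n) (Fin n) ℂ)) * S +
      (c : ℂ) • (1 : Matrix (Fin n) (Fin n) ℂ)).PosSemidef :=
  (((wis_psd ζ).add (psd_real ha)).conjTranspose_mul_mul_same S).add (psd_real hc)

theorem re_det_nonneg {A : Matrix (Fin n) (Fin n) ℂ} (h : A.PosSemidef) : 0 ≤ A.det.re :=
  (Complex.le_def.1 h.det_nonneg).1

/-- `low` is monotone. -/
theorem low_mono {a a' c c' : ℝ} (ha : 0 ≤ a) (haa : a ≤ a') (hc : 0 ≤ c) (hcc : c ≤ c')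
    (S : Matrix (Fin n) (Fin n) ℂ) (ζ : Jet n k) : low a' c' S ζ ≤ low a c S ζ := by
  have h0 : 0 ≤ (1 / 2 : ℝ) ^ n * (‖S.det‖ ^ 2 * (wis ζ).det.re) :=
    mul_nonneg (by positivity) (mul_nonneg (by positivity) (re_det_nonneg (wis_psd ζ)))
  by_cases h' : (wis ζ - ((2 * a' : ℝ) : ℂ) • (1 : Matrix (Fin n) (Fin n) ℂ)).PosSemidef
  · have h : (wis ζ - ((2 * a : ℝ) : ℂ) • (1 : Matrix (Fin n) (Fin n) ℂ)).PosSemidef := by
      have e : wis ζ - ((2 * a : ℝ) : ℂ) • (1 : Matrix (Fin n) (Fin n) ℂ) =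
          (wis ζ - ((2 * a' : ℝ) : ℂ) • (1 : Matrix (Fin n) (Fin n) ℂ)) +
          ((2 * a' - 2 * a : ℝ) : ℂ) • (1 : Matrix (Fin n) (Fin n) ℂ) := by
        rw [Complex.ofReal_sub, sub_smul]
        abel
      rw [e]
      exact h'.add (psd_real (by linarith))
    unfold low
    rw [if_pos h', if_pos h]
  · have h1 : low a' c' S ζ = -(Sᴴ * (wis ζ + (a' : ℂ) • (1 : Matrix (Fin n) (Fin n) ℂ)) * S +
        (c' : ℂ) • (1 : Matrix (Fin n) (Fin n) ℂ)).det.re := by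
      unfold low
      rw [if_neg h']
    rw [h1]
    have h2 : (Sᴴ * (wis ζ + (a : ℂ) • (1 : Matrix (Fin n) (Fin n) ℂ)) * S +
        (c : ℂ) • (1 : Matrix (Fin n) (Fin n) ℂ)).det.re ≤
        (Sᴴ * (wis ζ + (a' : ℂ) • (1 : Matrix (Fin n) (Fin n) ℂ)) * S +
        (c' : ℂ) • (1 : Matrix (Fin n) (Fin n) ℂ)).det.re := by
      apply Pool.H64.KB.det_mono (det_form_nonneg ha hc S ζ)
      have e : Sᴴ * (wis ζ + (a' : ℂ) • (1 : Matrix (Fin n) (Fin n) ℂ)) * S +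
          (c' : ℂ) • (1 : Matrix (Fin n) (Fin n) ℂ) -
          (Sᴴ * (wis ζ + (a : ℂ) • (1 : Matrix (Fin n) (Fin n) ℂ)) * S +
          (c : ℂ) • (1 : Matrix (Fin n) (Fin n) ℂ)) =
          Sᴴ * (((a' - a : ℝ) : ℂ) • (1 : Matrix (Fin n) (Fin n) ℂ)) * S +
          ((c' - c : ℝ) : ℂ) • (1 : Matrix (Fin n) (Fin n) ℂ) := by
        rw [Complex.ofReal_sub, Complex.ofReal_sub, sub_smul, sub_smul, Matrix.mul_add, Matrix.mul_add,
          Matrix.mul_sub, Matrix.add_mul, Matrix.add_mul, Matrix.sub_mul]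
        abel
      rw [e]
      exact ((psd_real (by linarith)).conjTranspose_mul_mul_same S).add (psd_real (by linarith))
    have h3 := re_det_nonneg (det_form_nonneg (ha.trans haa) (hc.trans hcc) S ζ)
    unfold low
    split_ifs with h
    · linarith
    · linarith

theorem wis_smul (c : ℝ) (ζ : Jet n k) : wis (c • ζ) = ((c ^ 2 : ℝ) : ℂ) • wis ζ := by
  unfold wis
  rw [Finset.smul_sum]
  refine Finset.sum_congr rfl fun s _ => ?_
  rw [smul_smul, mul_comm, ← smul_smul]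
  congr 1
  ext i j
  simp only [vecMulVec_apply, Pi.smul_apply, Pi.star_apply, Matrix.smul_apply, Complex.real_smul, smul_eq_mul,
    star_mul', Complex.ofReal_pow]
  have : star ((c : ℝ) : ℂ) = (c : ℂ) := Complex.conj_ofReal c
  rw [this]
  ring

/-- Homogeneity. -/
theorem low_smul {c : ℝ} (hc : 0 < c) (a b : ℝ) (S : Matrix (Fin n) (Fin n) ℂ) (ζ : Jet n k) :
    low (c ^ 2 * a) (c ^ 2 * b) S (c • ζ) = (c ^ 2) ^ n * low a b S ζ := by
  have hc2 : 0 < c ^ 2 := by positivity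
  have e1 : wis (c • ζ) - ((2 * (c ^ 2 * a) : ℝ) : ℂ) • (1 : Matrix (Fin n) (Fin n) ℂ) =
      ((c ^ 2 : ℝ) : ℂ) • (wis ζ - ((2 * a : ℝ) : ℂ) • (1 : Matrix (Fin n) (Fin n) ℂ)) := by
    rw [wis_smul, smul_sub, smul_smul]
    congr 2
    push_cast
    ring
  have e2 : (wis (c • ζ) - ((2 * (c ^ 2 * a) : ℝ) : ℂ) • (1 : Matrix (Fin n) (Fin n) ℂ)).PosSemidef ↔
      (wis ζ - ((2 * a : ℝ) : ℂ) • (1 : Matrix (Fin n) (Fin n) ℂ)).PosSemidef := by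
    rw [e1]
    constructor
    · intro h
      have h1 := h.smul (α := ℂ) (a := ((c ^ 2)⁻¹ : ℝ)) (Complex.zero_le_real.2 (by positivity))
      rw [smul_smul, ← Complex.ofReal_mul, inv_mul_cancel₀ hc2.ne', Complex.ofReal_one, one_smul] at h1
      exact h1
    · intro h
      exact h.smul (Complex.zero_le_real.2 hc2.le)
  have e3 : ∀ A : Matrix (Fin n) (Fin n) ℂ, (((c ^ 2 : ℝ) : ℂ) • A).det.re = (c ^ 2) ^ n * A.det.re := by
    intro A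
    rw [det_smul, Fintype.card_fin, ← Complex.ofReal_pow, Complex.re_ofReal_mul]
  unfold low
  by_cases h : (wis ζ - ((2 * a : ℝ) : ℂ) • (1 : Matrix (Fin n) (Fin n) ℂ)).PosSemidef
  · rw [if_pos h, if_pos (e2.2 h), wis_smul, e3]
    ring
  · rw [if_neg h, if_neg (fun h' => h (e2.1 h')), mul_neg, ← e3]
    congr 3
    rw [wis_smul, smul_add, smul_smul, ← Complex.ofReal_mul]
    congr 1
    have e4 : ((c ^ 2 : ℝ) : ℂ) • wis ζ + ((c ^ 2 * a : ℝ) : ℂ) • (1 : Matrix (Fin n) (Fin n) ℂ) =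
        ((c ^ 2 : ℝ) : ℂ) • (wis ζ + (a : ℂ) • (1 : Matrix (Fin n) (Fin n) ℂ)) := by
      rw [smul_add, smul_smul, Complex.ofReal_mul (c ^ 2) a]
    rw [e4, Matrix.mul_smul, Matrix.smul_mul]

end Pool.Agent.H57.KB
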