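import Pool.Agent.H57.KB.Polar
import Pool.Agent.H51.KB.Tail

/-!
# Gaussian integrals of homogeneous functions over balls
-/

set_option autoImplicit false

open MeasureTheory Matrix Set
open scoped ENNReal

namespace Pool.Agent.H57.KB

variable {n k : ℕ}

open Pool.Agent.H47.KB (dimN)
open Pool.Agent.H51.KB

/-- The product of measures with densities. -/
theorem pi_withDensity {ι E : Type*} [Fintype ι] [MeasurableSpace E] (μ : Measure E) [SigmaFinite μ]
    (g : E → ℝ) (hg : Integrable g μ) (h0 : ∀ x, 0 ≤ g x) :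
    Measure.pi (fun _ : ι => μ.withDensity fun x => ENNReal.ofReal (g x)) =
      (Measure.pi fun _ : ι => μ).withDensity fun x => ENNReal.ofReal (∏ i, g (x i)) := by
  have hfin : ∀ i : ι, IsFiniteMeasure ((fun _ : ι => μ.withDensity fun x => ENNReal.ofReal (g x)) i) := fun _ =>
    isFiniteMeasure_withDensity_ofReal hg.2
  refine Measure.pi_eq fun s hs => ?_
  have hsm : MeasurableSet (univ.pi s) := MeasurableSet.univ_pi hs
  rw [withDensity_apply _ hsm]
  have h1 : ∀ i, (μ.withDensity fun x => ENNReal.ofReal (g x)) (s i) =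
      ENNReal.ofReal (∫ x, (s i).indicator g x ∂μ) := by
    intro i
    rw [withDensity_apply _ (hs i), integral_indicator (hs i), ofReal_integral_eq_lintegral_ofReal]
    · exact hg.integrableOn
    · exact Filter.Eventually.of_forall h0
  have h2 : ∀ i, 0 ≤ ∫ x, (s i).indicator g x ∂μ := fun i =>
    integral_nonneg fun x => indicator_nonneg (fun y _ => h0 y) x
  have h3 : ∀ x : ι → E, (univ.pi s).indicator (fun x => ∏ i, g (x i)) x = ∏ i, (s i).indicator g (x i) := by
    intro x
    by_cases hx : x ∈ univ.pi s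
    · rw [indicator_of_mem hx]
      exact Finset.prod_congr rfl fun i _ => (indicator_of_mem (hx i (mem_univ i)) g).symm
    · rw [indicator_of_notMem hx]
      simp only [mem_pi, mem_univ, forall_const, not_forall] at hx
      obtain ⟨i, hi⟩ := hx
      exact (Finset.prod_eq_zero (Finset.mem_univ i) (indicator_of_notMem hi g)).symm
  rw [← ofReal_integral_eq_lintegral_ofReal]
  · rw [← integral_indicator hsm]
    simp_rw [h3, h1]
    rw [integral_fintype_prod_eq_prod (f := fun i x => (s i).indicator g x),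
      ENNReal.ofReal_prod_of_nonneg fun i _ => h2 i]
  · exact (Integrable.fintype_prod (f := fun _ : ι => g) (μ := fun _ => μ) fun _ => hg).integrableOn
  · exact Filter.Eventually.of_forall fun x => Finset.prod_nonneg fun i _ => h0 _

/-- `k n` independent standard complex Gaussians. -/
noncomputable abbrev gau (n k : ℕ) : Measure (Jet n k) := gm (Fin k) n

instance gau_prob : IsProbabilityMeasure (gau n k) := by
  unfold gau gm
  infer_instance

theorem prod_gd (ζ : Jet n k) :
    ∏ s, ∏ i, gd (ζ s i) = Real.exp (-nsq ζ) / Real.pi ^ (k * n) := by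
  unfold gd nsq
  simp only [← Complex.normSq_eq_norm_sq, Finset.prod_div_distrib, ← Real.exp_sum, Finset.prod_const, Finset.card_univ, Fintype.card_fin]
  rw [← pow_mul, mul_comm n k]
  simp only [Finset.sum_neg_distrib]

theorem gau_eq : gau n k = (volume : Measure (Jet n k)).withDensity fun ζ =>
    ENNReal.ofReal (Real.exp (-nsq ζ) / Real.pi ^ (k * n)) := by
  have h1 : (Measure.pi fun _ : Fin n => gc) =
      (volume : Measure (Fin n → ℂ)).withDensity fun x => ENNReal.ofReal (∏ i, gd (x i)) := by
    rw [volume_pi]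
    exact pi_withDensity (ι := Fin n) volume gd integrable_gd gd_nonneg
  have h2 : Integrable (fun x : Fin n → ℂ => ∏ i, gd (x i)) := by
    rw [volume_pi]
    exact Integrable.fintype_prod (f := fun _ : Fin n => gd) (μ := fun _ => volume) fun _ => integrable_gd
  unfold gau gm
  rw [h1]
  have h3 := pi_withDensity (ι := Fin k) (volume : Measure (Fin n → ℂ)) (fun x => ∏ i, gd (x i)) h2
    fun x => Finset.prod_nonneg fun i _ => gd_nonneg _
  rw [h3, ← volume_pi]
  congr 1
  ext ζ
  rw [prod_gd]

theorem gint (j : ℕ) : ∫⁻ r in Ioi (0 : ℝ), ENNReal.ofReal (r ^ j * Real.exp (-r)) =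
    ENNReal.ofReal j.factorial := by
  have e : ∀ x ∈ Ioi (0 : ℝ), Real.exp (-x) * x ^ (((j : ℝ) + 1) - 1) = x ^ j * Real.exp (-x) := by
    intro x _
    rw [add_sub_cancel_right, Real.rpow_natCast, mul_comm]
  have hi : IntegrableOn (fun x : ℝ => x ^ j * Real.exp (-x)) (Ioi 0) :=
    (integrableOn_congr_fun e measurableSet_Ioi).1 (Real.GammaIntegral_convergent (by positivity))
  rw [← ofReal_integral_eq_lintegral_ofReal hi]
  · rw [← Real.Gamma_nat_eq_factorial j, Real.Gamma_eq_integral (by positivity)]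
    congr 1
    exact (setIntegral_congr_fun measurableSet_Ioi e).symm
  · filter_upwards [ae_restrict_mem measurableSet_Ioi] with x hx
    have : 0 < x := hx
    positivity

/-- Radial integrals. -/
theorem radial (hM : 0 < k * n) (j : ℕ) :
    ∫⁻ r in Ioi (0 : ℝ), ENNReal.ofReal ((k * n : ℕ) * r ^ (k * n - 1)) *
      ENNReal.ofReal (r ^ j * (Real.exp (-r) / Real.pi ^ (k * n))) =
    ENNReal.ofReal ((k * n : ℕ) / Real.pi ^ (k * n) * (k * n - 1 + j).factorial) := by
  have hpi := Real.pi_pos
  rw [ENNReal.ofReal_mul (by positivity), ← gint, ← lintegral_const_mul]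
  · refine setLIntegral_congr_fun measurableSet_Ioi fun r hr => ?_
    have : 0 < r := hr
    rw [← ENNReal.ofReal_mul (by positivity), ← ENNReal.ofReal_mul (by positivity)]
    congr 1
    rw [pow_add]
    ring
  · apply ENNReal.measurable_ofReal.comp
    fun_prop

/-- Direction and norm: the integral of a homogeneous function of degree `2n` over a ball. -/
theorem cut (hM : 0 < k * n) (R : ℝ) : ∃ c : ℝ, 0 ≤ c ∧
    c ≤ (dimN n k).factorial / (k * n - 1).factorial ∧
    ∀ φ : Jet n k → ℝ, Measurable φ → (∀ ζ, φ ζ = nsq ζ ^ n * φ (dir ζ)) →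
      ∫ ζ in {ζ | nsq ζ ≤ R}, φ ζ ∂(gau n k) = c * ∫ ζ, φ ζ ∂(sph n k) := by
  have hpi := Real.pi_pos
  set ψ₀ : ℝ → ℝ≥0∞ := fun r => ENNReal.ofReal (r ^ 0 * (Real.exp (-r) / Real.pi ^ (k * n))) with hψ₀
  set ψ : ℝ → ℝ≥0∞ := (Iic R).indicator fun r => ENNReal.ofReal (r ^ n * (Real.exp (-r) / Real.pi ^ (k * n)))
    with hψ
  have hm₀ : Measurable ψ₀ := by
    apply ENNReal.measurable_ofReal.comp
    fun_prop
  have hm : Measurable ψ := by
    apply Measurable.indicator _ measurableSet_Iic
    apply ENNReal.measurable_ofReal.comp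
    fun_prop
  set V := volume {ζ : Jet n k | nsq ζ ≤ 1} with hV
  have hV0 : V ≠ 0 := ball_pos.ne'
  have hV1 : V ≠ ⊤ := ball_lt_top.ne
  set ν := (volume.restrict {ζ : Jet n k | nsq ζ ≤ 1}).map dir with hν
  have hνu : ν univ = V := by
    rw [hν, Measure.map_apply measurable_dir MeasurableSet.univ, preimage_univ, Measure.restrict_apply_univ]
  have hsph : sph n k = V⁻¹ • ν := by
    unfold sph
    rw [ProbabilityTheory.cond, Measure.map_smul]
    rfl
  set C₀ := ENNReal.ofReal ((k * n : ℕ) / Real.pi ^ (k * n) * (k * n - 1).factorial) with hC₀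
  set C := ∫⁻ r in Ioi (0 : ℝ), ENNReal.ofReal ((k * n : ℕ) * r ^ (k * n - 1)) * ψ r with hC
  set C₁ := ENNReal.ofReal ((k * n : ℕ) / Real.pi ^ (k * n) * (dimN n k).factorial) with hC₁
  have hCC : C ≤ C₁ := by
    have h1 := radial (n := n) (k := k) hM n
    have e : k * n - 1 + n = dimN n k := by
      unfold dimN
      omega
    rw [e] at h1
    rw [hC, hC₁, ← h1]
    refine lintegral_mono fun r => ?_
    refine mul_le_mul' le_rfl ?_
    exact indicator_le_self _ _ _
  have hd0 := map_dir (n := n) (k := k) hM hm₀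
  have hd := map_dir (n := n) (k := k) hM hm
  rw [← hν, ← hC] at hd
  have h0 : (volume : Measure (Jet n k)).withDensity (fun ζ => ψ₀ (nsq ζ)) = gau n k := by
    rw [gau_eq, hψ₀]
    simp only [pow_zero, one_mul]
  rw [h0] at hd0
  have hr0 : ∫⁻ r in Ioi (0 : ℝ), ENNReal.ofReal ((k * n : ℕ) * r ^ (k * n - 1)) * ψ₀ r = C₀ := by
    have h1 := radial (n := n) (k := k) hM 0
    rw [add_zero] at h1
    exact h1
  rw [hr0, ← hν] at hd0
  have hCV : C₀ * V = 1 := by
    have h1 : ((gau n k).map dir) univ = 1 := by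
      rw [Measure.map_apply measurable_dir MeasurableSet.univ, preimage_univ, measure_univ]
    rw [hd0, Measure.smul_apply, hνu, smul_eq_mul] at h1
    exact h1
  have hC₀0 : 0 < (k * n : ℕ) / Real.pi ^ (k * n) * ((k * n - 1).factorial : ℝ) := by
    have : (0 : ℝ) < (k * n : ℕ) := by exact_mod_cast hM
    have h2 : (0 : ℝ) < (k * n - 1).factorial := by positivity
    positivity
  have hC1 : C ≠ ⊤ := ne_top_of_le_ne_top ENNReal.ofReal_ne_top hCC
  refine ⟨(C * V).toReal, ENNReal.toReal_nonneg, ?_, ?_⟩
  · have h1 : C * V ≤ C₁ * V := mul_le_mul' hCC le_rfl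
    have h2 : C₁ * V = ENNReal.ofReal ((dimN n k).factorial / (k * n - 1).factorial) := by
      have h3 : C₁ = ENNReal.ofReal ((dimN n k).factorial / (k * n - 1).factorial) * C₀ := by
        rw [hC₁, hC₀, ← ENNReal.ofReal_mul (by positivity)]
        congr 1
        have : ((k * n - 1).factorial : ℝ) ≠ 0 := by positivity
        field_simp
      rw [h3, mul_assoc, hCV, mul_one]
    rw [h2] at h1
    exact ENNReal.toReal_le_of_le_ofReal (by positivity) h1
  · intro φ hφ hh
    have hmR : MeasurableSet {ζ : Jet n k | nsq ζ ≤ R} := measurableSet_le measurable_nsq measurable_const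
    have e1 : ∫ ζ in {ζ | nsq ζ ≤ R}, φ ζ ∂(gau n k) =
        ∫ ζ, φ (dir ζ) ∂((volume : Measure (Jet n k)).withDensity fun ζ => ψ (nsq ζ)) := by
      have hm2 : Measurable fun ζ : Jet n k => ENNReal.ofReal (Real.exp (-nsq ζ) / Real.pi ^ (k * n)) := by
        apply ENNReal.measurable_ofReal.comp
        have := measurable_nsq (n := n) (k := k)
        fun_prop
      have hm3 : Measurable fun ζ : Jet n k => ψ (nsq ζ) := hm.comp measurable_nsq
      rw [← integral_indicator hmR, gau_eq, integral_withDensity_eq_integral_toReal_smul hm2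
        (Filter.Eventually.of_forall fun _ => ENNReal.ofReal_lt_top),
        integral_withDensity_eq_integral_toReal_smul hm3
        (Filter.Eventually.of_forall fun ζ => ?_)]
      · congr 1
        ext ζ
        have hns := nsq_nonneg ζ
        by_cases h : nsq ζ ≤ R
        · rw [indicator_of_mem (show ζ ∈ {ζ : Jet n k | nsq ζ ≤ R} from h)]
          have : ψ (nsq ζ) = ENNReal.ofReal (nsq ζ ^ n * (Real.exp (-nsq ζ) / Real.pi ^ (k * n))) :=
            indicator_of_mem (show nsq ζ ∈ Iic R from h) _
          change _ = (ψ (nsq ζ)).toReal • φ (dir ζ)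
          rw [this, ENNReal.toReal_ofReal (by positivity), ENNReal.toReal_ofReal (by positivity), hh ζ,
            smul_eq_mul, smul_eq_mul]
          ring
        · rw [indicator_of_notMem (show ζ ∉ {ζ : Jet n k | nsq ζ ≤ R} from h)]
          have : ψ (nsq ζ) = 0 := indicator_of_notMem (show nsq ζ ∉ Iic R from h) _
          change _ = (ψ (nsq ζ)).toReal • φ (dir ζ)
          rw [this]
          simp
      · refine lt_of_le_of_lt (indicator_le_self _ _ _) ENNReal.ofReal_lt_top
    rw [e1, ← integral_map (φ := dir) measurable_dir.aemeasurable hφ.aestronglyMeasurable, hd,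
      integral_smul_measure, hsph, integral_smul_measure, ENNReal.toReal_mul, ENNReal.toReal_inv, smul_eq_mul,
      smul_eq_mul]
    have hVr : V.toReal ≠ 0 := (ENNReal.toReal_pos hV0 hV1).ne'
    field_simp

end Pool.Agent.H57.KB
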