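import Pool.Agent.H47.KB.Defs
import Pool.Agent.H64.KB.Idx

/-!
# Holomorphic Morse inequality for jets of hypersurfaces, metric form

Demailly's inequality (2011, Section 2) for the bundles of Green and Griffiths on a smooth hypersurface of
`ℙ^{n+1}` with the metric of Fubini and Study; the curvature is written with the Gauss equation.
-/

set_option autoImplicit false

open MeasureTheory Matrix
open scoped ComplexOrder

namespace Pool.Agent.H57.KB

open Pool.Agent.H47.KB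

/-- `ζ = (ζ_1, .., ζ_k)`, vectors of the tangent space of `X_F` at a point, in a unitary basis. -/
abbrev Jet (n k : ℕ) := Fin k → Fin n → ℂ

/-- `|ζ|² = |ζ_1|² + .. + |ζ_k|²`. -/
noncomputable def nsq {n k : ℕ} (ζ : Jet n k) : ℝ := ∑ s, ∑ i, Complex.normSq (ζ s i)

/-- The uniform probability measure of the sphere `|ζ| = 1` of `ℂ^{kn}` (image of the uniform probability
measure of the unit ball under the map `ζ ↦ ζ/|ζ|`). -/
noncomputable def sph (n k : ℕ) : Measure (Jet n k) :=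
  (ProbabilityTheory.cond volume {ζ : Jet n k | nsq ζ ≤ 1}).map fun ζ => (Real.sqrt (nsq ζ))⁻¹ • ζ

/-- The hermitian form `∑_s (1/s) Q(ζ_s) + |ζ|² (2ω - t b/(d-1))` of the variable `ξ`, where `ω(ξ,ξ) = |ξ|²`,
`b(ξ,ξ) = |S ξ|²` and `Q(u)(ξ,ξ) = |uᵀ S ξ|² - |u|²|ξ|² - |⟨u,ξ⟩|²`. By the Gauss equation, `-Q(u)` is the
curvature of `T_X` in the direction `u`, if `S` is the second fundamental form. -/
noncomputable def curv {n k : ℕ} (d : ℕ) (t : ℝ) (S : Matrix (Fin n) (Fin n) ℂ) (ζ : Jet n k) :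
    Matrix (Fin n) (Fin n) ℂ :=
  ∑ s : Fin k, ((1 / ((s : ℕ) + 1) : ℝ) : ℂ) • (vecMulVec (star (ζ s ᵥ* S)) (ζ s ᵥ* S) -
      ((∑ i, Complex.normSq (ζ s i) : ℝ) : ℂ) • (1 : Matrix (Fin n) (Fin n) ℂ) -
      vecMulVec (ζ s) (star (ζ s))) +
    (nsq ζ : ℂ) • ((2 : ℂ) • (1 : Matrix (Fin n) (Fin n) ℂ) - ((t / (d - 1) : ℝ) : ℂ) • (Sᴴ * S))

/-- Published facts about jet differentials on general hypersurfaces of degree `d` and dimension `n`. -/
structure MorseFacts (n k d : ℕ) extends Jets n k d where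
  /-- The points of `X_F`, for one very general `F` (`h0 m b` is the dimension of
  `H⁰(X_F, E_{k,m} ⊗ O(-b))` for all `m` and `b`). -/
  X : Type
  [mX : MeasurableSpace X]
  /-- The measure `ωⁿ`; `ω` is the form of Fubini and Study on `X_F`, `[ω] = h`. -/
  μ : Measure X
  [fin : IsFiniteMeasure μ]
  /-- The second fundamental form of `X_F` in `ℙ^{n+1}`, in unitary bases of the tangent spaces. -/
  S : X → Matrix (Fin n) (Fin n) ℂ
  symm : ∀ z i j, S z i j = S z j i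
  meas : ∀ i j, Measurable fun z => S z i j
  bdd : ∃ B : ℝ, ∀ z i j, ‖S z i j‖ ≤ B
  /-- `b = (n+1)ω - Ric(ω)` is a closed form of class `(d-1)h`, and `∫ (xω + yb)ⁿ` is computed in
  cohomology. -/
  chern : ∀ x y : ℝ, ∫ z, ((x : ℂ) • (1 : Matrix (Fin n) (Fin n) ℂ) + (y : ℂ) • ((S z)ᴴ * S z)).det.re ∂μ =
    d * (x + y * (d - 1)) ^ n
  /-- Demailly, Holomorphic Morse inequalities and the Green-Griffiths-Lang conjecture (2011), Section 2:
  lower bound for the sections of multiples of `O(1) ⊗ O(2 - t)` by the integral of the `n`-th power of the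
  curvature over the set where it has at most one negative eigenvalue; `φ` is any lower bound of the
  integrand. -/
  morse : ∀ t : ℚ, 0 ≤ t → ∀ φ : X → Jet n k → ℝ, Measurable (fun p : X × Jet n k => φ p.1 p.2) →
    (∃ B : ℝ, ∀ z ζ, nsq ζ = 1 → |φ z ζ| ≤ B) →
    (∀ z ζ, nsq ζ = 1 → φ z ζ ≤ Pool.H64.KB.idx (curv d t (S z) ζ)) →
    ∀ ε : ℝ, 0 < ε → ∃ D : ℕ, 0 < D ∧ ∃ m₀ : ℕ, ∀ m : ℕ, m₀ ≤ m → D ∣ m →
      ∀ b : ℕ, (b : ℚ) = (t - 2) * m →
        ((dimN n k).factorial / (n.factorial * (k.factorial : ℝ) ^ n * (k * n - 1).factorial) *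
          (∫ z, ∫ ζ, φ z ζ ∂(sph n k) ∂μ) - ε) * (m : ℝ) ^ dimN n k / (dimN n k).factorial ≤ h0 m b

attribute [instance] MorseFacts.mX MorseFacts.fin

/-- `W(ζ) = ∑_s (1/s) conj(ζ_s) ζ_sᵀ`. -/
noncomputable def wis {n k : ℕ} (ζ : Jet n k) : Matrix (Fin n) (Fin n) ℂ :=
  ∑ s : Fin k, ((1 / ((s : ℕ) + 1) : ℝ) : ℂ) • vecMulVec (star (ζ s)) (ζ s)

open Classical in
/-- A lower bound of the integrand on `{|ζ|² ≤ R}`, for `a = t R/(d-1)` and `c = 2 R`. -/
noncomputable def low {n k : ℕ} (a c : ℝ) (S : Matrix (Fin n) (Fin n) ℂ) (ζ : Jet n k) : ℝ :=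
  if (wis ζ - ((2 * a : ℝ) : ℂ) • (1 : Matrix (Fin n) (Fin n) ℂ)).PosSemidef then
    (1 / 2) ^ n * (‖S.det‖ ^ 2 * (wis ζ).det.re)
  else -(Sᴴ * (wis ζ + (a : ℂ) • (1 : Matrix (Fin n) (Fin n) ℂ)) * S +
    (c : ℂ) • (1 : Matrix (Fin n) (Fin n) ℂ)).det.re

end Pool.Agent.H57.KB
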