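import Pool.Agent.H57.KB.Form
import Pool.Agent.H57.KB.Gau

/-!
# Many jet differentials from the metric Morse inequality
-/

set_option autoImplicit false

open MeasureTheory Matrix Set
open scoped ComplexOrder ENNReal

namespace Pool.Agent.H57.KB

variable {n k d : ℕ}

open Pool.Agent.H47.KB (dimN)

theorem isClosed_psd : IsClosed {M : Matrix (Fin n) (Fin n) ℂ | M.PosSemidef} := by
  have e : {M : Matrix (Fin n) (Fin n) ℂ | M.PosSemidef} =
      {M : Matrix (Fin n) (Fin n) ℂ | Mᴴ = M} ∩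
        ⋂ x : Fin n → ℂ, ({M : Matrix (Fin n) (Fin n) ℂ | 0 ≤ (star x ⬝ᵥ (M *ᵥ x)).re} ∩
          {M : Matrix (Fin n) (Fin n) ℂ | 0 = (star x ⬝ᵥ (M *ᵥ x)).im}) := by
    ext M
    simp only [mem_ofPred_eq, mem_inter_iff, mem_iInter]
    rw [posSemidef_iff_dotProduct_mulVec]
    simp only [Complex.le_def, Complex.zero_re, Complex.zero_im]
    exact Iff.rfl
  rw [e]
  refine IsClosed.inter ?_ (isClosed_iInter fun x => IsClosed.inter ?_ ?_)
  · exact isClosed_eq continuous_id.matrix_conjTranspose continuous_id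
  · refine isClosed_le continuous_const (Complex.continuous_re.comp ?_)
    exact Continuous.dotProduct continuous_const (continuous_id.matrix_mulVec continuous_const)
  · refine isClosed_eq continuous_const (Complex.continuous_im.comp ?_)
    exact Continuous.dotProduct continuous_const (continuous_id.matrix_mulVec continuous_const)

theorem continuous_wis : Continuous (wis : Jet n k → Matrix (Fin n) (Fin n) ℂ) := by
  unfold wis
  refine continuous_finsetSum _ fun s _ => Continuous.fun_const_smul ?_ _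
  have h : Continuous fun ζ : Jet n k => ζ s := continuous_apply s
  exact Continuous.matrix_vecMulVec h.star h

/-- The good set. -/
def good (n k : ℕ) (a : ℝ) : Set (Jet n k) :=
  {ζ | (wis ζ - ((2 * a : ℝ) : ℂ) • (1 : Matrix (Fin n) (Fin n) ℂ)).PosSemidef}

theorem isClosed_good' {α : Jet n k → ℝ} (hα : Continuous α) :
    IsClosed {ζ : Jet n k | (wis ζ - ((2 * α ζ : ℝ) : ℂ) • (1 : Matrix (Fin n) (Fin n) ℂ)).PosSemidef} := by
  refine isClosed_psd.preimage (f := fun ζ : Jet n k => wis ζ - ((2 * α ζ : ℝ) : ℂ) •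
    (1 : Matrix (Fin n) (Fin n) ℂ)) ?_
  refine continuous_wis.sub (Continuous.fun_smul ?_ continuous_const)
  exact Complex.continuous_ofReal.comp (continuous_const.mul hα)

theorem measurableSet_good (a : ℝ) : MeasurableSet (good n k a) :=
  (isClosed_good' (n := n) (k := k) (α := fun _ => a) continuous_const).measurableSet

/-- The two branches. -/
noncomputable def G1 (p : (Fin n → Fin n → ℂ) × Jet n k) : ℝ :=
  (1 / 2) ^ n * (‖(Matrix.of p.1).det‖ ^ 2 * (wis p.2).det.re)

noncomputable def G2 (α β : Jet n k → ℝ) (p : (Fin n → Fin n → ℂ) × Jet n k) : ℝ :=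
  -((Matrix.of p.1)ᴴ * (wis p.2 + (α p.2 : ℂ) • (1 : Matrix (Fin n) (Fin n) ℂ)) * Matrix.of p.1 +
    (β p.2 : ℂ) • (1 : Matrix (Fin n) (Fin n) ℂ)).det.re

theorem continuous_of : Continuous fun p : (Fin n → Fin n → ℂ) × Jet n k =>
    (Matrix.of p.1 : Matrix (Fin n) (Fin n) ℂ) := continuous_fst

theorem continuous_G1 : Continuous (G1 (n := n) (k := k)) := by
  unfold G1
  have h1 : Continuous fun p : (Fin n → Fin n → ℂ) × Jet n k => (wis p.2).det :=
    (continuous_wis.comp continuous_snd).matrix_det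
  have h2 : Continuous fun p : (Fin n → Fin n → ℂ) × Jet n k => (Matrix.of p.1).det :=
    continuous_of.matrix_det
  exact continuous_const.mul ((h2.norm.pow 2).mul (Complex.continuous_re.comp h1))

theorem continuous_G2 {α β : Jet n k → ℝ} (hα : Continuous α) (hβ : Continuous β) :
    Continuous (G2 α β) := by
  unfold G2
  have h1 : Continuous fun p : (Fin n → Fin n → ℂ) × Jet n k =>
      wis p.2 + (α p.2 : ℂ) • (1 : Matrix (Fin n) (Fin n) ℂ) :=
    (continuous_wis.comp continuous_snd).add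
      ((Complex.continuous_ofReal.comp (hα.comp continuous_snd)).fun_smul continuous_const)
  have h2 : Continuous fun p : (Fin n → Fin n → ℂ) × Jet n k =>
      (β p.2 : ℂ) • (1 : Matrix (Fin n) (Fin n) ℂ) :=
    (Complex.continuous_ofReal.comp (hβ.comp continuous_snd)).fun_smul continuous_const
  exact (Complex.continuous_re.comp (((continuous_of.matrix_conjTranspose.matrix_mul h1).matrix_mul
    continuous_of).add h2).matrix_det).neg

open Classical in
theorem low_eq (α β : Jet n k → ℝ) (S : Matrix (Fin n) (Fin n) ℂ) (ζ : Jet n k) :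
    low (α ζ) (β ζ) S ζ =
      if (wis ζ - ((2 * α ζ : ℝ) : ℂ) • (1 : Matrix (Fin n) (Fin n) ℂ)).PosSemidef then G1 (S, ζ)
      else G2 α β (S, ζ) := rfl

theorem nsq_ball {R : ℝ} : {ζ : Jet n k | nsq ζ ≤ R} ⊆ Metric.closedBall 0 (Real.sqrt R) := by
  intro ζ hζ
  rw [mem_closedBall_zero_iff, pi_norm_le_iff_of_nonneg (Real.sqrt_nonneg _)]
  intro s
  rw [pi_norm_le_iff_of_nonneg (Real.sqrt_nonneg _)]
  intro i
  have h1 : Complex.normSq (ζ s i) ≤ nsq ζ := by
    unfold nsq
    refine le_trans ?_ (Finset.single_le_sum (f := fun s => ∑ i, Complex.normSq (ζ s i))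
      (fun _ _ => Finset.sum_nonneg fun _ _ => Complex.normSq_nonneg _) (Finset.mem_univ s))
    exact Finset.single_le_sum (f := fun i => Complex.normSq (ζ s i)) (fun _ _ => Complex.normSq_nonneg _)
      (Finset.mem_univ i)
  apply Real.le_sqrt_of_sq_le
  rw [← Complex.normSq_eq_norm_sq]
  exact h1.trans hζ

theorem isCompact_K (B R : ℝ) : IsCompact
    ((Set.pi univ fun _ : Fin n => Set.pi univ fun _ : Fin n => Metric.closedBall (0 : ℂ) B) ×ˢ
      Metric.closedBall (0 : Jet n k) R) :=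
  (isCompact_univ_pi fun _ => isCompact_univ_pi fun _ => isCompact_closedBall _ _).prod
    (isCompact_closedBall _ _)

theorem low_bound {α β : Jet n k → ℝ} (hα : Continuous α) (hβ : Continuous β) (B R : ℝ) :
    ∃ C : ℝ, ∀ (S : Matrix (Fin n) (Fin n) ℂ) (ζ : Jet n k), (∀ i j, ‖S i j‖ ≤ B) → nsq ζ ≤ R →
      |G1 (S, ζ)| ≤ C ∧ |G2 α β (S, ζ)| ≤ C ∧ |low (α ζ) (β ζ) S ζ| ≤ C := by
  obtain ⟨C1, h1⟩ := (isCompact_K (n := n) (k := k) B (Real.sqrt R)).exists_bound_of_continuousOn
    (continuous_G1 (n := n) (k := k)).continuousOn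
  obtain ⟨C2, h2⟩ := (isCompact_K (n := n) (k := k) B (Real.sqrt R)).exists_bound_of_continuousOn
    (continuous_G2 hα hβ).continuousOn
  refine ⟨max C1 C2, fun S ζ hS hζ => ?_⟩
  have hmem : ((S : Fin n → Fin n → ℂ), ζ) ∈
      ((Set.pi univ fun _ : Fin n => Set.pi univ fun _ : Fin n => Metric.closedBall (0 : ℂ) B) ×ˢ
      Metric.closedBall (0 : Jet n k) (Real.sqrt R)) := by
    refine ⟨fun i _ j _ => ?_, nsq_ball hζ⟩
    rw [mem_closedBall_zero_iff]
    exact hS i j
  have h1' : |G1 (S, ζ)| ≤ C1 := h1 _ hmem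
  have h2' : |G2 α β (S, ζ)| ≤ C2 := h2 _ hmem
  refine ⟨h1'.trans (le_max_left _ _), h2'.trans (le_max_right _ _), ?_⟩
  rw [low_eq]
  split_ifs
  · exact h1'.trans (le_max_left _ _)
  · exact h2'.trans (le_max_right _ _)

namespace MorseFacts

variable (T : MorseFacts n k d)

theorem measurable_S : Measurable fun z : T.X => (fun i j => T.S z i j : Fin n → Fin n → ℂ) :=
  measurable_pi_iff.2 fun i => measurable_pi_iff.2 fun j => T.meas i j

theorem measurable_pair : Measurable fun p : T.X × Jet n k =>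
    ((fun i j => T.S p.1 i j, p.2) : (Fin n → Fin n → ℂ) × Jet n k) :=
  (T.measurable_S.comp measurable_fst).prodMk measurable_snd

theorem measurable_G1 : Measurable fun p : T.X × Jet n k => G1 (fun i j => T.S p.1 i j, p.2) :=
  (continuous_G1 (n := n) (k := k)).measurable.comp T.measurable_pair

theorem measurable_G2 {α β : Jet n k → ℝ} (hα : Continuous α) (hβ : Continuous β) :
    Measurable fun p : T.X × Jet n k => G2 α β (fun i j => T.S p.1 i j, p.2) :=
  (continuous_G2 hα hβ).measurable.comp T.measurable_pair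

theorem measurable_low {α β : Jet n k → ℝ} (hα : Continuous α) (hβ : Continuous β) :
    Measurable fun p : T.X × Jet n k => low (α p.2) (β p.2) (T.S p.1) p.2 := by
  classical
  have h0 : MeasurableSet {p : T.X × Jet n k |
      (wis p.2 - ((2 * α p.2 : ℝ) : ℂ) • (1 : Matrix (Fin n) (Fin n) ℂ)).PosSemidef} :=
    (isClosed_good' hα).measurableSet.preimage measurable_snd
  have h : Measurable fun p : T.X × Jet n k =>
      if (wis p.2 - ((2 * α p.2 : ℝ) : ℂ) • (1 : Matrix (Fin n) (Fin n) ℂ)).PosSemidef then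
        G1 (fun i j => T.S p.1 i j, p.2) else G2 α β (fun i j => T.S p.1 i j, p.2) :=
    Measurable.ite h0 T.measurable_G1 (T.measurable_G2 hα hβ)
  exact h

/-- The integrand on the cut. -/
theorem integrable_low {α β : Jet n k → ℝ} (hα : Continuous α) (hβ : Continuous β) (R : ℝ) :
    Integrable (fun p : T.X × Jet n k =>
      {ζ : Jet n k | nsq ζ ≤ R}.indicator (fun ζ => low (α ζ) (β ζ) (T.S p.1) ζ) p.2)
      (T.μ.prod (gau n k)) := by
  obtain ⟨B, hB⟩ := T.bdd
  obtain ⟨C, hC⟩ := low_bound hα hβ B R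
  have hs : MeasurableSet {p : T.X × Jet n k | nsq p.2 ≤ R} :=
    measurableSet_le (measurable_nsq.comp measurable_snd) measurable_const
  have e : (fun p : T.X × Jet n k =>
      {ζ : Jet n k | nsq ζ ≤ R}.indicator (fun ζ => low (α ζ) (β ζ) (T.S p.1) ζ) p.2) =
      {p : T.X × Jet n k | nsq p.2 ≤ R}.indicator fun p => low (α p.2) (β p.2) (T.S p.1) p.2 := by
    ext p
    by_cases h : nsq p.2 ≤ R
    · rw [indicator_of_mem (show p.2 ∈ {ζ : Jet n k | nsq ζ ≤ R} from h),
        indicator_of_mem (show p ∈ {p : T.X × Jet n k | nsq p.2 ≤ R} from h)]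
    · rw [indicator_of_notMem (show p.2 ∉ {ζ : Jet n k | nsq ζ ≤ R} from h),
        indicator_of_notMem (show p ∉ {p : T.X × Jet n k | nsq p.2 ≤ R} from h)]
  rw [e]
  refine Integrable.of_bound ((T.measurable_low hα hβ).indicator hs).aestronglyMeasurable (max C 0)
    (Filter.Eventually.of_forall fun p => ?_)
  by_cases h : nsq p.2 ≤ R
  · rw [indicator_of_mem (show p ∈ {p : T.X × Jet n k | nsq p.2 ≤ R} from h)]
    exact ((hC (T.S p.1) p.2 (hB p.1) h).2.2).trans (le_max_left _ _)
  · rw [indicator_of_notMem (show p ∉ {p : T.X × Jet n k | nsq p.2 ≤ R} from h), norm_zero]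
    exact le_max_right _ _

theorem measurableSet_cut (R : ℝ) : MeasurableSet {ζ : Jet n k | nsq ζ ≤ R} :=
  measurableSet_le measurable_nsq measurable_const

theorem integral_cut_mono {α β α' β' : Jet n k → ℝ} (hα : Continuous α) (hβ : Continuous β)
    (hα' : Continuous α') (hβ' : Continuous β') (R : ℝ)
    (h : ∀ z ζ, nsq ζ ≤ R → low (α ζ) (β ζ) (T.S z) ζ ≤ low (α' ζ) (β' ζ) (T.S z) ζ) :
    ∫ z, ∫ ζ in {ζ | nsq ζ ≤ R}, low (α ζ) (β ζ) (T.S z) ζ ∂(gau n k) ∂T.μ ≤
      ∫ z, ∫ ζ in {ζ | nsq ζ ≤ R}, low (α' ζ) (β' ζ) (T.S z) ζ ∂(gau n k) ∂T.μ := by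
  have h1 := T.integrable_low hα hβ R
  have h2 := T.integrable_low hα' hβ' R
  simp_rw [← integral_indicator (measurableSet_cut R)]
  rw [← integral_prod _ h1, ← integral_prod _ h2]
  refine integral_mono h1 h2 fun p => ?_
  by_cases hp : nsq p.2 ≤ R
  · simp only [indicator_of_mem (show p.2 ∈ {ζ : Jet n k | nsq ζ ≤ R} from hp)]
    exact h p.1 p.2 hp
  · simp only [indicator_of_notMem (show p.2 ∉ {ζ : Jet n k | nsq ζ ≤ R} from hp)]
    exact le_rfl

theorem integrable_cut (a c R : ℝ) :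
    Integrable (fun z => ∫ ζ in {ζ : Jet n k | nsq ζ ≤ R}, low a c (T.S z) ζ ∂(gau n k)) T.μ := by
  have h := (T.integrable_low (α := fun _ => a) (β := fun _ => c) continuous_const continuous_const
    R).integral_prod_left
  refine h.congr (Filter.Eventually.of_forall fun z => ?_)
  exact integral_indicator (measurableSet_cut R)

/-- `low` at `(t|ζ|²/(d-1), 2|ζ|²)` is homogeneous of degree `2n`. -/
theorem low_dir (hn : 1 ≤ n) (t : ℝ) (S : Matrix (Fin n) (Fin n) ℂ) (ζ : Jet n k) :
    low (t * nsq ζ / (d - 1)) (2 * nsq ζ) S ζ =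
      nsq ζ ^ n * low (t * nsq (dir ζ) / (d - 1)) (2 * nsq (dir ζ)) S (dir ζ) := by
  rcases (nsq_nonneg ζ).lt_or_eq with h | h
  · have h1 := nsq_dir h
    have hc : 0 < Real.sqrt (nsq ζ) := Real.sqrt_pos.2 h
    have hc2 : Real.sqrt (nsq ζ) ^ 2 = nsq ζ := Real.sq_sqrt h.le
    have h2 : Real.sqrt (nsq ζ) • dir ζ = ζ := by
      unfold dir
      rw [smul_smul, mul_inv_cancel₀ hc.ne', one_smul]
    have h3 := low_smul hc (t * nsq (dir ζ) / (d - 1)) (2 * nsq (dir ζ)) S (dir ζ)
    rw [h2, hc2, h1] at h3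
    rw [h1, ← h3]
    congr 1
    · ring
    · ring
  · have h0 : ζ = 0 := nsq_eq_zero h.symm.le
    have hw : wis (0 : Jet n k) = 0 := by
      unfold wis
      refine Finset.sum_eq_zero fun s _ => ?_
      ext i j
      simp
    have hpsd : (wis (0 : Jet n k) - ((2 * 0 : ℝ) : ℂ) • (1 : Matrix (Fin n) (Fin n) ℂ)).PosSemidef := by
      rw [hw]
      simp only [mul_zero, Complex.ofReal_zero, zero_smul, sub_zero]
      exact Matrix.PosSemidef.zero
    have hn0 : Nonempty (Fin n) := ⟨⟨0, hn⟩⟩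
    rw [← h, zero_pow (by omega), zero_mul, mul_zero, mul_zero, zero_div, h0]
    unfold low
    rw [if_pos hpsd, hw, det_zero, Complex.zero_re, mul_zero, mul_zero]

end MorseFacts

end Pool.Agent.H57.KB
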