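import Pool.Agent.H57.KB.MDefs

/-!
# Direction and norm of a vector are independent
-/

set_option autoImplicit false

open MeasureTheory Matrix Set
open scoped ENNReal

namespace Pool.Agent.H57.KB

variable {n k : ℕ}

theorem nsq_nonneg (ζ : Jet n k) : 0 ≤ nsq ζ :=
  Finset.sum_nonneg fun _ _ => Finset.sum_nonneg fun _ _ => Complex.normSq_nonneg _

theorem nsq_smul (c : ℝ) (ζ : Jet n k) : nsq (c • ζ) = c ^ 2 * nsq ζ := by
  unfold nsq
  rw [Finset.mul_sum]
  refine Finset.sum_congr rfl fun s _ => ?_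
  rw [Finset.mul_sum]
  refine Finset.sum_congr rfl fun i _ => ?_
  rw [Pi.smul_apply, Pi.smul_apply, Complex.real_smul, Complex.normSq_mul, Complex.normSq_ofReal]
  ring

theorem continuous_nsq : Continuous (nsq : Jet n k → ℝ) := by
  unfold nsq
  refine continuous_finsetSum _ fun s _ => continuous_finsetSum _ fun i _ => ?_
  exact Complex.continuous_normSq.comp ((continuous_apply i).comp (continuous_apply s))

theorem measurable_nsq : Measurable (nsq : Jet n k → ℝ) := continuous_nsq.measurable

theorem nsq_eq_zero {ζ : Jet n k} (h : nsq ζ ≤ 0) : ζ = 0 := by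
  have h1 : nsq ζ = 0 := le_antisymm h (nsq_nonneg ζ)
  unfold nsq at h1
  rw [Finset.sum_eq_zero_iff_of_nonneg
    (fun _ _ => Finset.sum_nonneg fun _ _ => Complex.normSq_nonneg _)] at h1
  ext s i
  have h2 := h1 s (Finset.mem_univ s)
  rw [Finset.sum_eq_zero_iff_of_nonneg (fun _ _ => Complex.normSq_nonneg _)] at h2
  have h3 := h2 i (Finset.mem_univ i)
  simpa using h3

/-- The direction `ζ/|ζ|`. -/
noncomputable def dir (ζ : Jet n k) : Jet n k := (Real.sqrt (nsq ζ))⁻¹ • ζ

theorem measurable_dir : Measurable (dir : Jet n k → Jet n k) := by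
  unfold dir
  exact (measurable_nsq.sqrt.inv).smul measurable_id

theorem dir_smul {c : ℝ} (hc : 0 < c) (ζ : Jet n k) : dir (c • ζ) = dir ζ := by
  unfold dir
  rw [nsq_smul, Real.sqrt_mul (by positivity), Real.sqrt_sq hc.le, smul_smul]
  congr 1
  rw [mul_inv]
  field_simp

theorem nsq_dir {ζ : Jet n k} (h : 0 < nsq ζ) : nsq (dir ζ) = 1 := by
  unfold dir
  rw [nsq_smul, inv_pow, Real.sq_sqrt h.le]
  field_simp

theorem finrank_jet : Module.finrank ℝ (Jet n k) = 2 * (k * n) := by
  simp [Jet, Module.finrank_pi_fintype]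
  ring

instance volume_haar : (volume : Measure (Jet n k)).IsAddHaarMeasure := by
  have h : ∀ i : Fin k, ((fun _ : Fin k => (volume : Measure (Fin n → ℂ))) i).IsAddHaarMeasure := fun _ => by
    infer_instance
  rw [volume_pi]
  exact Measure.pi.isAddHaarMeasure (μ := fun _ : Fin k => (volume : Measure (Fin n → ℂ)))

/-- Scaling. -/
theorem lintegral_scale {f : Jet n k → ℝ≥0∞} (hf : Measurable f)
    (hh : ∀ (c : ℝ) (ζ : Jet n k), 0 < c → f (c • ζ) = f ζ) {r : ℝ} (hr : 0 < r) :
    ∫⁻ ζ in {ζ | nsq ζ ≤ r}, f ζ = ENNReal.ofReal (r ^ (k * n)) * ∫⁻ ζ in {ζ | nsq ζ ≤ 1}, f ζ := by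
  set s := Real.sqrt r with hs
  have hs0 : 0 < s := Real.sqrt_pos.2 hr
  have hs2 : s ^ 2 = r := Real.sq_sqrt hr.le
  have h1 := Measure.map_addHaar_smul (volume : Measure (Jet n k)) hs0.ne'
  have hp : 0 < s ^ Module.finrank ℝ (Jet n k) := by positivity
  have h2 : (volume : Measure (Jet n k)) =
      ENNReal.ofReal (r ^ (k * n)) • Measure.map (fun x => s • x) (volume : Measure (Jet n k)) := by
    have h3 : s ^ Module.finrank ℝ (Jet n k) = r ^ (k * n) := by rw [finrank_jet, pow_mul s 2, hs2]
    rw [h1, smul_smul, ← ENNReal.ofReal_mul (by positivity), abs_of_pos (inv_pos.2 hp), h3,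
      mul_inv_cancel₀ (by positivity), ENNReal.ofReal_one, one_smul]
  have hm : MeasurableSet {ζ : Jet n k | nsq ζ ≤ r} := measurableSet_le measurable_nsq measurable_const
  have hms : Measurable fun x : Jet n k => s • x := measurable_const_smul s
  conv_lhs => rw [h2]
  rw [Measure.restrict_smul, lintegral_smul_measure, ← lintegral_indicator hm,
    lintegral_map (hf.indicator hm) hms, smul_eq_mul]
  congr 1
  rw [← lintegral_indicator (measurableSet_le measurable_nsq measurable_const)]
  congr 1
  ext ζ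
  by_cases h : nsq ζ ≤ 1
  · rw [indicator_of_mem, indicator_of_mem, hh s ζ hs0]
    · exact h
    · change nsq (s • ζ) ≤ r
      rw [nsq_smul, hs2]
      nlinarith
  · rw [indicator_of_notMem, indicator_of_notMem]
    · exact h
    · change ¬ nsq (s • ζ) ≤ r
      rw [nsq_smul, hs2]
      push Not at h ⊢
      nlinarith

theorem volume_zero (hM : 0 < k * n) : volume ({0} : Set (Jet n k)) = 0 := by
  have : Nontrivial (Jet n k) := by
    apply Module.nontrivial_of_finrank_pos (R := ℝ)
    rw [finrank_jet]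
    omega
  exact measure_singleton _

/-- The law of `|ζ|²`. -/
theorem polar (hM : 0 < k * n) {f : Jet n k → ℝ≥0∞} (hf : Measurable f)
    (hh : ∀ (c : ℝ) (ζ : Jet n k), 0 < c → f (c • ζ) = f ζ)
    (hfin : ∫⁻ ζ in {ζ | nsq ζ ≤ 1}, f ζ ≠ ⊤) {ψ : ℝ → ℝ≥0∞} (hψ : Measurable ψ) :
    ∫⁻ ζ, f ζ * ψ (nsq ζ) =
      (∫⁻ ζ in {ζ | nsq ζ ≤ 1}, f ζ) *
        ∫⁻ r in Ioi (0 : ℝ), ENNReal.ofReal ((k * n : ℕ) * r ^ (k * n - 1)) * ψ r := by
  set c := ∫⁻ ζ in {ζ | nsq ζ ≤ 1}, f ζ with hc
  set g : ℝ → ℝ≥0∞ := fun r => ENNReal.ofReal ((k * n : ℕ) * r ^ (k * n - 1)) with hg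
  have hgm : Measurable g := by
    apply ENNReal.measurable_ofReal.comp
    fun_prop
  have key : Measure.map nsq ((volume : Measure (Jet n k)).withDensity f) =
      c • (volume.restrict (Ioi (0 : ℝ))).withDensity g := by
    have hI : ∀ r : ℝ, Measure.map nsq ((volume : Measure (Jet n k)).withDensity f) (Iic r) =
        (c • (volume.restrict (Ioi (0 : ℝ))).withDensity g) (Iic r) := by
      intro r
      have hmr : MeasurableSet {ζ : Jet n k | nsq ζ ≤ r} := measurableSet_le measurable_nsq measurable_const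
      rw [Measure.map_apply measurable_nsq measurableSet_Iic]
      change (volume.withDensity f) {ζ : Jet n k | nsq ζ ≤ r} = _
      rw [withDensity_apply _ hmr, Measure.smul_apply, withDensity_apply _ measurableSet_Iic,
        Measure.restrict_restrict measurableSet_Iic, smul_eq_mul]
      rcases le_or_gt r 0 with hr | hr
      · have e1 : Iic r ∩ Ioi (0 : ℝ) = ∅ := by
          ext x
          simp only [mem_inter_iff, mem_Iic, mem_Ioi, mem_empty_iff_false, iff_false, not_and, not_lt]
          intro h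
          linarith
        rw [e1, Measure.restrict_empty, lintegral_zero_measure, mul_zero]
        apply setLIntegral_measure_zero
        apply measure_mono_null _ (volume_zero hM)
        intro ζ hζ
        exact nsq_eq_zero (le_trans hζ hr)
      · rw [lintegral_scale hf hh hr, mul_comm, ← hc]
        congr 1
        have e1 : Iic r ∩ Ioi (0 : ℝ) = Ioc 0 r := by
          ext x
          simp only [mem_inter_iff, mem_Iic, mem_Ioi, mem_Ioc]
          tauto
        rw [e1, hg, ← ofReal_integral_eq_lintegral_ofReal]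
        · rw [← intervalIntegral.integral_of_le hr.le, intervalIntegral.integral_const_mul, integral_pow]
          congr 1
          have e2 : k * n - 1 + 1 = k * n := by omega
          have e3 : (((k * n - 1 : ℕ) : ℝ) + 1) = (k * n : ℕ) := by
            rw [← e2]
            push_cast
            ring_nf
          rw [e3, e2, zero_pow (by omega), sub_zero]
          have : ((k * n : ℕ) : ℝ) ≠ 0 := by exact_mod_cast hM.ne'
          field_simp
        · have : Continuous fun x : ℝ => ((k * n : ℕ) : ℝ) * x ^ (k * n - 1) := by fun_prop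
          exact (this.integrableOn_Icc (a := 0) (b := r)).mono_set Ioc_subset_Icc_self
        · filter_upwards [ae_restrict_mem measurableSet_Ioc] with x hx
          have : 0 < x := hx.1
          positivity
    refine Measure.ext_of_generateFrom_of_iUnion (range Iic) (fun i : ℕ => Iic (i : ℝ)) ?_ isPiSystem_Iic ?_ ?_
      ?_ ?_
    · rw [← borel_eq_generateFrom_Iic]
      exact BorelSpace.measurable_eq
    · ext x
      simp only [mem_iUnion, mem_Iic, mem_univ, iff_true]
      exact exists_nat_ge x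
    · intro i
      exact mem_range_self _
    · intro i
      have hmr : MeasurableSet {ζ : Jet n k | nsq ζ ≤ (i : ℝ)} :=
        measurableSet_le measurable_nsq measurable_const
      rw [Measure.map_apply measurable_nsq measurableSet_Iic]
      change (volume.withDensity f) {ζ : Jet n k | nsq ζ ≤ (i : ℝ)} ≠ ⊤
      rw [withDensity_apply _ hmr]
      rcases Nat.eq_zero_or_pos i with rfl | hi
      · have : ∫⁻ ζ in {ζ : Jet n k | nsq ζ ≤ ((0 : ℕ) : ℝ)}, f ζ ≤ c := by
          rw [hc]
          apply lintegral_mono_set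
          intro ζ hζ
          simp only [Nat.cast_zero, mem_ofPred_eq] at hζ ⊢
          linarith
        exact ne_top_of_le_ne_top hfin this
      · rw [lintegral_scale hf hh (by exact_mod_cast hi)]
        exact ENNReal.mul_ne_top ENNReal.ofReal_ne_top hfin
    · rintro _ ⟨r, rfl⟩
      exact hI r
  calc ∫⁻ ζ, f ζ * ψ (nsq ζ) = ∫⁻ ζ, ψ (nsq ζ) ∂((volume : Measure (Jet n k)).withDensity f) := by
        have hg2 : Measurable fun ζ : Jet n k => ψ (nsq ζ) := hψ.comp measurable_nsq
        rw [lintegral_withDensity_eq_lintegral_mul _ hf hg2]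
        rfl
    _ = ∫⁻ r, ψ r ∂(Measure.map nsq ((volume : Measure (Jet n k)).withDensity f)) := by
        rw [lintegral_map hψ measurable_nsq]
    _ = _ := by
        rw [key, lintegral_smul_measure, lintegral_withDensity_eq_lintegral_mul _ hgm hψ, smul_eq_mul]
        rfl

theorem ball_lt_top : volume {ζ : Jet n k | nsq ζ ≤ 1} < ⊤ := by
  refine lt_of_le_of_lt (measure_mono ?_) (Metric.isBounded_closedBall (x := (0 : Jet n k)) (r := 1)).measure_lt_top
  intro ζ hζ
  rw [mem_closedBall_zero_iff, pi_norm_le_iff_of_nonneg (by norm_num)]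
  intro s
  rw [pi_norm_le_iff_of_nonneg (by norm_num)]
  intro i
  have h1 : Complex.normSq (ζ s i) ≤ nsq ζ := by
    unfold nsq
    refine le_trans ?_ (Finset.single_le_sum (f := fun s => ∑ i, Complex.normSq (ζ s i))
      (fun _ _ => Finset.sum_nonneg fun _ _ => Complex.normSq_nonneg _) (Finset.mem_univ s))
    exact Finset.single_le_sum (f := fun i => Complex.normSq (ζ s i)) (fun _ _ => Complex.normSq_nonneg _)
      (Finset.mem_univ i)
  have h2 : ‖ζ s i‖ ^ 2 ≤ 1 := by
    rw [← Complex.normSq_eq_norm_sq]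
    exact h1.trans hζ
  nlinarith [norm_nonneg (ζ s i)]

theorem ball_pos : 0 < volume {ζ : Jet n k | nsq ζ ≤ 1} := by
  have h1 : IsOpen {ζ : Jet n k | nsq ζ < 1} := isOpen_lt continuous_nsq continuous_const
  have h2 : ({ζ : Jet n k | nsq ζ < 1}).Nonempty := ⟨0, by simp [nsq]⟩
  refine lt_of_lt_of_le (h1.measure_pos volume h2) (measure_mono ?_)
  intro ζ hζ
  exact le_of_lt (show nsq ζ < 1 from hζ)

/-- The law of the direction does not depend on the radial density. -/
theorem map_dir (hM : 0 < k * n) {ψ : ℝ → ℝ≥0∞} (hψ : Measurable ψ) :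
    ((volume : Measure (Jet n k)).withDensity fun ζ => ψ (nsq ζ)).map dir =
      (∫⁻ r in Ioi (0 : ℝ), ENNReal.ofReal ((k * n : ℕ) * r ^ (k * n - 1)) * ψ r) •
        (volume.restrict {ζ : Jet n k | nsq ζ ≤ 1}).map dir := by
  ext s hs
  have hd : MeasurableSet (dir ⁻¹' s : Set (Jet n k)) := measurable_dir hs
  rw [Measure.map_apply measurable_dir hs, Measure.smul_apply, Measure.map_apply measurable_dir hs,
    withDensity_apply _ hd]
  set f : Jet n k → ℝ≥0∞ := (dir ⁻¹' s).indicator fun _ => 1 with hfd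
  have hf : Measurable f := measurable_const.indicator hd
  have hh : ∀ (c : ℝ) (ζ : Jet n k), 0 < c → f (c • ζ) = f ζ := by
    intro c ζ hc
    have e : c • ζ ∈ (dir ⁻¹' s : Set (Jet n k)) ↔ ζ ∈ (dir ⁻¹' s : Set (Jet n k)) := by
      rw [mem_preimage, mem_preimage, dir_smul hc]
    by_cases h : ζ ∈ (dir ⁻¹' s : Set (Jet n k))
    · rw [hfd, indicator_of_mem h, indicator_of_mem (e.2 h)]
    · rw [hfd, indicator_of_notMem h, indicator_of_notMem (fun h' => h (e.1 h'))]
  have hv : ∫⁻ ζ in {ζ | nsq ζ ≤ 1}, f ζ = (volume.restrict {ζ : Jet n k | nsq ζ ≤ 1}) (dir ⁻¹' s) := by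
    rw [hfd, lintegral_indicator hd, lintegral_const, one_mul, Measure.restrict_apply_univ]
  have hp := polar hM hf hh (by
    rw [hv]
    refine ne_of_lt (lt_of_le_of_lt (measure_mono (subset_univ _)) ?_)
    rw [Measure.restrict_apply_univ]
    exact ball_lt_top) hψ
  rw [hv] at hp
  rw [smul_eq_mul, mul_comm, ← hp, ← lintegral_indicator hd]
  congr 1
  ext ζ
  rw [hfd]
  by_cases h : ζ ∈ (dir ⁻¹' s : Set (Jet n k))
  · rw [indicator_of_mem h, indicator_of_mem h, one_mul]
  · rw [indicator_of_notMem h, indicator_of_notMem h, zero_mul]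

end Pool.Agent.H57.KB
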