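import Pool.Agent.H57.KB.Morse

/-!
# The integral over the good set and the error term
-/

set_option autoImplicit false

open MeasureTheory Matrix Set
open scoped ComplexOrder ENNReal

namespace Pool.Agent.H57.KB

variable {n k d : ℕ}

/-- The error form. -/
noncomputable def errForm (a c : ℝ) (S : Matrix (Fin n) (Fin n) ℂ) (ζ : Jet n k) : ℝ :=
  (Sᴴ * (wis ζ + (a : ℂ) • (1 : Matrix (Fin n) (Fin n) ℂ)) * S +
    (c : ℂ) • (1 : Matrix (Fin n) (Fin n) ℂ)).det.re

/-- The main form. -/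
noncomputable def mainForm (S : Matrix (Fin n) (Fin n) ℂ) (ζ : Jet n k) : ℝ :=
  (1 / 2) ^ n * (‖S.det‖ ^ 2 * (wis ζ).det.re)

theorem low_good {a c : ℝ} (S : Matrix (Fin n) (Fin n) ℂ) {ζ : Jet n k} (h : ζ ∈ good n k a) :
    low a c S ζ = mainForm S ζ := by
  have h2 : (wis ζ - ((2 * a : ℝ) : ℂ) • (1 : Matrix (Fin n) (Fin n) ℂ)).PosSemidef := h
  unfold low mainForm
  rw [if_pos h2]

theorem low_bad {a c : ℝ} (S : Matrix (Fin n) (Fin n) ℂ) {ζ : Jet n k} (h : ζ ∉ good n k a) :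
    low a c S ζ = -errForm a c S ζ := by
  have h2 : ¬ (wis ζ - ((2 * a : ℝ) : ℂ) • (1 : Matrix (Fin n) (Fin n) ℂ)).PosSemidef := h
  unfold low errForm
  rw [if_neg h2]

theorem errForm_eq (a c : ℝ) (S : Matrix (Fin n) (Fin n) ℂ) (ζ : Jet n k) :
    errForm a c S ζ = -G2 (fun _ => a) (fun _ => c) (fun i j => S i j, ζ) := by
  unfold errForm G2
  rw [neg_neg]
  rfl

theorem mainForm_eq (S : Matrix (Fin n) (Fin n) ℂ) (ζ : Jet n k) :
    mainForm S ζ = G1 (fun i j => S i j, ζ) := rfl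

namespace MorseFacts

variable (T : MorseFacts n k d)

theorem measurable_err (a c : ℝ) : Measurable fun p : T.X × Jet n k => errForm a c (T.S p.1) p.2 := by
  simp only [errForm_eq]
  exact (T.measurable_G2 (α := fun _ => a) (β := fun _ => c) continuous_const continuous_const).neg

theorem measurable_main : Measurable fun p : T.X × Jet n k => mainForm (T.S p.1) p.2 := by
  simp only [mainForm_eq]
  exact T.measurable_G1

theorem bound (a c R : ℝ) : ∃ C : ℝ, 0 ≤ C ∧ ∀ (z : T.X) (ζ : Jet n k), nsq ζ ≤ R →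
    |mainForm (T.S z) ζ| ≤ C ∧ |errForm a c (T.S z) ζ| ≤ C := by
  obtain ⟨B, hB⟩ := T.bdd
  obtain ⟨C, hC⟩ := low_bound (n := n) (k := k) (α := fun _ => a) (β := fun _ => c) continuous_const
    continuous_const B R
  refine ⟨max C 0, le_max_right _ _, fun z ζ hζ => ?_⟩
  obtain ⟨h1, h2, -⟩ := hC (T.S z) ζ (hB z) hζ
  refine ⟨le_trans ?_ (le_max_left _ _), le_trans ?_ (le_max_left _ _)⟩
  · rw [mainForm_eq]
    exact h1
  · rw [errForm_eq, abs_neg]
    exact h2

/-- Integrability of a bounded measurable function on a subset of the cut. -/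
theorem integrable_on {F : T.X → Jet n k → ℝ} (hF : Measurable fun p : T.X × Jet n k => F p.1 p.2) {C R : ℝ}
    (hC0 : 0 ≤ C) (hC : ∀ z ζ, nsq ζ ≤ R → |F z ζ| ≤ C) {s : Set (Jet n k)} (hs : MeasurableSet s)
    (hsR : ∀ ζ ∈ s, nsq ζ ≤ R) :
    Integrable (fun p : T.X × Jet n k => s.indicator (F p.1) p.2) (T.μ.prod (gau n k)) := by
  have hs' : MeasurableSet {p : T.X × Jet n k | p.2 ∈ s} := measurable_snd hs
  have e : (fun p : T.X × Jet n k => s.indicator (F p.1) p.2) =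
      {p : T.X × Jet n k | p.2 ∈ s}.indicator fun p => F p.1 p.2 := by
    ext p
    by_cases h : p.2 ∈ s
    · rw [indicator_of_mem h, indicator_of_mem (show p ∈ {p : T.X × Jet n k | p.2 ∈ s} from h)]
    · rw [indicator_of_notMem h, indicator_of_notMem (show p ∉ {p : T.X × Jet n k | p.2 ∈ s} from h)]
  rw [e]
  refine Integrable.of_bound (hF.indicator hs').aestronglyMeasurable C (Filter.Eventually.of_forall fun p => ?_)
  by_cases h : p.2 ∈ s
  · rw [indicator_of_mem (show p ∈ {p : T.X × Jet n k | p.2 ∈ s} from h)]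
    exact hC _ _ (hsR _ h)
  · rw [indicator_of_notMem (show p ∉ {p : T.X × Jet n k | p.2 ∈ s} from h), norm_zero]
    exact hC0

theorem integrable_outer {F : T.X → Jet n k → ℝ} (hF : Measurable fun p : T.X × Jet n k => F p.1 p.2) {C R : ℝ}
    (hC0 : 0 ≤ C) (hC : ∀ z ζ, nsq ζ ≤ R → |F z ζ| ≤ C) {s : Set (Jet n k)} (hs : MeasurableSet s)
    (hsR : ∀ ζ ∈ s, nsq ζ ≤ R) :
    Integrable (fun z => ∫ ζ in s, F z ζ ∂(gau n k)) T.μ := by
  have h := (T.integrable_on hF hC0 hC hs hsR).integral_prod_left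
  refine h.congr (Filter.Eventually.of_forall fun z => ?_)
  exact integral_indicator hs

theorem integrable_inner {F : T.X → Jet n k → ℝ} (hF : Measurable fun p : T.X × Jet n k => F p.1 p.2) {C R : ℝ}
    (hC : ∀ z ζ, nsq ζ ≤ R → |F z ζ| ≤ C) {s : Set (Jet n k)} (hs : MeasurableSet s)
    (hsR : ∀ ζ ∈ s, nsq ζ ≤ R) (z : T.X) : IntegrableOn (F z) s (gau n k) := by
  have h1 : Measurable fun ζ : Jet n k => (z, ζ) := measurable_prodMk_left
  have h2 : Measurable fun ζ : Jet n k => F z ζ := hF.comp h1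
  refine Integrable.of_bound h2.aestronglyMeasurable C ?_
  filter_upwards [ae_restrict_mem hs] with ζ hζ
  exact hC z ζ (hsR ζ hζ)

/-- Good and bad part. -/
theorem split (a c R : ℝ) :
    ∫ z, ∫ ζ in {ζ | nsq ζ ≤ R}, low a c (T.S z) ζ ∂(gau n k) ∂T.μ =
      (1 / 2) ^ n * ((∫ z, ‖(T.S z).det‖ ^ 2 ∂T.μ) *
        ∫ ζ in {ζ | nsq ζ ≤ R} ∩ good n k a, (wis ζ).det.re ∂(gau n k)) -
      ∫ z, ∫ ζ in {ζ | nsq ζ ≤ R} \ good n k a,
        ((T.S z)ᴴ * (wis ζ + (a : ℂ) • (1 : Matrix (Fin n) (Fin n) ℂ)) * T.S z +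
          (c : ℂ) • (1 : Matrix (Fin n) (Fin n) ℂ)).det.re ∂(gau n k) ∂T.μ := by
  have hg := measurableSet_good (n := n) (k := k) a
  have hcut := measurableSet_cut (n := n) (k := k) R
  obtain ⟨C, hC0, hC⟩ := T.bound a c R
  have hm : Measurable fun p : T.X × Jet n k => low a c (T.S p.1) p.2 :=
    T.measurable_low (α := fun _ => a) (β := fun _ => c) continuous_const continuous_const
  have hlC : ∀ (z : T.X) (ζ : Jet n k), nsq ζ ≤ R → |low a c (T.S z) ζ| ≤ C := by
    intro z ζ hζ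
    by_cases h : ζ ∈ good n k a
    · rw [low_good _ h]
      exact (hC z ζ hζ).1
    · rw [low_bad _ h, abs_neg]
      exact (hC z ζ hζ).2
  have h1 := T.measurable_main
  have h2 := T.measurable_err a c
  -- for every point
  have key : ∀ z, ∫ ζ in {ζ | nsq ζ ≤ R}, low a c (T.S z) ζ ∂(gau n k) =
      (∫ ζ in {ζ | nsq ζ ≤ R} ∩ good n k a, mainForm (T.S z) ζ ∂(gau n k)) -
      ∫ ζ in {ζ | nsq ζ ≤ R} \ good n k a, errForm a c (T.S z) ζ ∂(gau n k) := by
    intro z
    have hint := T.integrable_inner (F := fun z ζ => low a c (T.S z) ζ) hm hlC hcut (fun ζ h => h) z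
    rw [← integral_inter_add_sdiff hg hint, sub_eq_add_neg, ← integral_neg]
    congr 1
    · exact setIntegral_congr_fun (hcut.inter hg) fun ζ hζ => low_good _ hζ.2
    · exact setIntegral_congr_fun (hcut.diff hg) fun ζ hζ => low_bad _ hζ.2
  have i1 := T.integrable_outer (F := fun z ζ => mainForm (T.S z) ζ) h1 hC0 (fun z ζ h => (hC z ζ h).1)
    (hcut.inter hg) (fun ζ h => h.1)
  have i2 := T.integrable_outer (F := fun z ζ => errForm a c (T.S z) ζ) h2 hC0 (fun z ζ h => (hC z ζ h).2)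
    (hcut.diff hg) (fun ζ h => h.1)
  rw [integral_congr_ae (Filter.Eventually.of_forall key), integral_sub i1 i2]
  congr 1
  unfold mainForm
  simp only [integral_const_mul]
  rw [integral_mul_const]

end MorseFacts

end Pool.Agent.H57.KB
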