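import Pool.Agent.H57.KB.Morse

/-!
# The volume bound
-/

set_option autoImplicit false

open MeasureTheory Matrix Set
open scoped ComplexOrder ENNReal

namespace Pool.Agent.H57.KB

variable {n k d : ℕ}

open Pool.Agent.H47.KB (dimN)

namespace MorseFacts

variable (T : MorseFacts n k d)

/-- The homogeneous minorant. -/
noncomputable def phi (t : ℝ) (z : T.X) (ζ : Jet n k) : ℝ :=
  low (t * nsq ζ / (d - 1)) (2 * nsq ζ) (T.S z) ζ

theorem cont_a (t : ℝ) : Continuous fun ζ : Jet n k => t * nsq ζ / ((d : ℝ) - 1) :=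
  (continuous_const.mul continuous_nsq).div_const _

theorem cont_b : Continuous fun ζ : Jet n k => 2 * nsq ζ := continuous_const.mul continuous_nsq

theorem measurable_phi (t : ℝ) : Measurable fun p : T.X × Jet n k => T.phi t p.1 p.2 :=
  T.measurable_low (α := fun ζ => t * nsq ζ / ((d : ℝ) - 1)) (β := fun ζ => 2 * nsq ζ) (cont_a t) cont_b

theorem phi_dir (hn : 1 ≤ n) (t : ℝ) (z : T.X) (ζ : Jet n k) :
    T.phi t z ζ = nsq ζ ^ n * T.phi t z (dir ζ) := low_dir hn _ _ _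

theorem phi_eq (t : ℝ) (z : T.X) (ζ : Jet n k) :
    T.phi t z ζ = low (t * nsq ζ / (d - 1)) (2 * nsq ζ) (T.S z) ζ := rfl

attribute [irreducible] phi

theorem measurable_phi' (t : ℝ) (z : T.X) : Measurable (T.phi t z) := by
  have h := T.measurable_phi t
  have h1 : Measurable fun ζ : Jet n k => (z, ζ) := measurable_prodMk_left
  exact h.comp h1

/-- The integral over the ball and over the sphere. -/
theorem cut_sph (hn : 1 ≤ n) (hk : 1 ≤ k) (t R : ℝ) : ∃ c : ℝ, 0 ≤ c ∧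
    c ≤ (dimN n k).factorial / (k * n - 1).factorial ∧
    ∫ z, ∫ ζ in {ζ | nsq ζ ≤ R}, T.phi t z ζ ∂(gau n k) ∂T.μ =
      c * ∫ z, ∫ ζ, T.phi t z ζ ∂(sph n k) ∂T.μ := by
  obtain ⟨c, hc0, hc1, hc⟩ := cut (n := n) (k := k) (Nat.mul_pos hk hn) R
  refine ⟨c, hc0, hc1, ?_⟩
  have h1 : ∀ z, ∫ ζ in {ζ | nsq ζ ≤ R}, T.phi t z ζ ∂(gau n k) = c * ∫ ζ, T.phi t z ζ ∂(sph n k) := fun z =>
    hc (T.phi t z) (T.measurable_phi' t z) (T.phi_dir hn t z)
  rw [← integral_const_mul]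
  exact integral_congr_ae (Filter.Eventually.of_forall h1)

theorem le_cut (hd : 1 ≤ d) (t R : ℝ) (ht : 0 ≤ t) :
    ∫ z, ∫ ζ in {ζ | nsq ζ ≤ R}, low (t * R / (d - 1)) (2 * R) (T.S z) ζ ∂(gau n k) ∂T.μ ≤
      ∫ z, ∫ ζ in {ζ | nsq ζ ≤ R}, T.phi t z ζ ∂(gau n k) ∂T.μ := by
  have hd' : (0 : ℝ) ≤ (d : ℝ) - 1 := by
    have : (1 : ℝ) ≤ d := by exact_mod_cast hd
    linarith
  simp only [phi_eq]
  refine T.integral_cut_mono (α := fun _ => t * R / ((d : ℝ) - 1)) (β := fun _ => 2 * R)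
    (α' := fun ζ => t * nsq ζ / ((d : ℝ) - 1)) (β' := fun ζ => 2 * nsq ζ)
    continuous_const continuous_const (cont_a t) cont_b R fun z ζ hζ => ?_
  have h0 := nsq_nonneg ζ
  refine low_mono (div_nonneg (mul_nonneg ht h0) hd') ?_ (by positivity) (by linarith) _ _
  exact div_le_div_of_nonneg_right (mul_le_mul_of_nonneg_left hζ ht) hd'

/-- The inequality of Demailly for the homogeneous minorant. -/
theorem morse_phi (hd : 1 ≤ d) (t : ℚ) (ht : 0 ≤ t) (ε : ℝ) (hε : 0 < ε) :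
    ∃ D : ℕ, 0 < D ∧ ∃ m₀ : ℕ, ∀ m : ℕ, m₀ ≤ m → D ∣ m → ∀ b : ℕ, (b : ℚ) = (t - 2) * m →
      ((dimN n k).factorial / (n.factorial * (k.factorial : ℝ) ^ n * (k * n - 1).factorial) *
        (∫ z, ∫ ζ, T.phi t z ζ ∂(sph n k) ∂T.μ) - ε) * (m : ℝ) ^ dimN n k / (dimN n k).factorial ≤
      T.h0 m b := by
  have ht' : (0 : ℝ) ≤ (t : ℝ) := by exact_mod_cast ht
  obtain ⟨B, hB⟩ := T.bdd
  obtain ⟨C, hC⟩ := low_bound (n := n) (k := k) (α := fun ζ => (t : ℝ) * nsq ζ / ((d : ℝ) - 1))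
    (β := fun ζ => 2 * nsq ζ) (cont_a (t : ℝ)) cont_b B 1
  refine T.morse t ht (T.phi t) (T.measurable_phi t) ⟨C, fun z ζ hζ => ?_⟩ (fun z ζ _ => ?_) ε hε
  · rw [phi_eq]
    exact (hC (T.S z) ζ (hB z) hζ.le).2.2
  · rw [phi_eq]
    exact low_le_idx d hd ht' (T.S z) ζ

theorem arith {κ c E n' N M : ℝ} (hκ : 0 ≤ κ) (hn : 0 < n') (hN : 0 < N) (hM : 0 < M) (hc : 0 ≤ c)
    (hc1 : c ≤ N / M) (h : κ * (n' * N) < c * E) : κ * N < N / (n' * M) * E := by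
  have hE0 : 0 < E := by
    by_contra hneg
    push Not at hneg
    have := mul_nonpos_of_nonneg_of_nonpos hc hneg
    have : 0 ≤ κ * (n' * N) := by positivity
    linarith
  have h1 : κ * (n' * N) < N / M * E := h.trans_le (mul_le_mul_of_nonneg_right hc1 hE0.le)
  have e : N / (n' * M) * E = N / M * E / n' := by field_simp
  rw [e, lt_div_iff₀ hn]
  linarith

/-- Many jet differentials: the volume bound from an integral over a ball. -/
theorem vol (hn : 1 ≤ n) (hk : 1 ≤ k) (hd : 1 ≤ d) (t : ℚ) (ht : 0 ≤ t) (R : ℝ) (κ : ℝ) (hκ : 0 ≤ κ)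
    (h : κ * (n.factorial * (k.factorial : ℝ) ^ n * (dimN n k).factorial) <
      ∫ z, ∫ ζ in {ζ | nsq ζ ≤ R}, low (t * R / (d - 1)) (2 * R) (T.S z) ζ ∂(gau n k) ∂T.μ) :
    ∃ D : ℕ, 0 < D ∧ ∃ m₀ : ℕ, ∀ m : ℕ, m₀ ≤ m → D ∣ m → ∀ b : ℕ, (b : ℚ) = (t - 2) * m →
      κ * (m : ℝ) ^ (n + k * n - 1) ≤ T.h0 m b := by
  have ht' : (0 : ℝ) ≤ (t : ℝ) := by exact_mod_cast ht
  obtain ⟨c, hc0, hc1, hc⟩ := T.cut_sph hn hk t R
  have h1 := h.trans_le (T.le_cut hd t R ht')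
  rw [hc] at h1
  have hN : (0 : ℝ) < (dimN n k).factorial := by exact_mod_cast Nat.factorial_pos _
  have hM : (0 : ℝ) < (k * n - 1).factorial := by exact_mod_cast Nat.factorial_pos _
  have hG : (0 : ℝ) < n.factorial * (k.factorial : ℝ) ^ n := by positivity
  have h2 := arith hκ hG hN hM hc0 hc1 h1
  obtain ⟨D, hD, m₀, hm⟩ := T.morse_phi hd t ht _ (sub_pos.2 h2)
  refine ⟨D, hD, m₀, fun m h3 h4 b hb => ?_⟩
  have h5 := hm m h3 h4 b hb
  rw [sub_sub_cancel] at h5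
  refine le_trans (le_of_eq ?_) h5
  rw [mul_right_comm, mul_div_assoc, div_self hN.ne', mul_one]
  rfl

end MorseFacts

end Pool.Agent.H57.KB
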